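import Pool.Agent.NH80.Quad.Final

/-!
# Quadrilaterals obtained by mutating a rectangle

For all `a, b > 0`, a set `Q` of the plane is a quadrilateral which is integral affine
equivalent to a polygon arising from the rectangle `[0,a] × [0,b]` if and only if its four
corners are of Wahl type, with indices `dᵢ` and eigendirections `eᵢ`, the `eᵢ` are congruent
modulo `2`, the Markov type equation
`∑ det(eᵢ, eᵢ₊₁) dᵢ₊₂ dᵢ₊₃ = 8 d₀ d₁ d₂ d₃` holds, the affine perimeter is `2 (a + b)` and
the area is `a b`.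
-/

open Set Pool.Agent.NH80.Quad

namespace Pool.Agent.Results.MP_fafc5c_gt.MarkovQuadrilaterals

theorem result (a b : ℝ) (ha : 0 < a) (hb : 0 < b) (Q : Set Pt) :
    ((∃ Q', Arises a b Q' ∧ AffEquiv Q' Q) ∧ (Q.extremePoints ℝ).ncard = 4) ↔
      IsMarkovQuad a b Q :=
  main ha hb Q

end Pool.Agent.Results.MP_fafc5c_gt.MarkovQuadrilaterals
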